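import Pool.Agent.W295.PR.Stm

/-! Project PR, part PPBP (helper962): the elements of `PP` are polynomial maps. -/

set_option autoImplicit false

namespace Pool.Agent.W962.PR.PPBP

open Pool.Agent.W295.PR

theorem main (h1 : S_BP) (h2 : S_EV) : S_PPbp := by
  intro G _ _ _ N D f hf
  obtain ⟨hmul, hinv, -, hpow, hconst⟩ := h1 (RR D) G 1 le_rfl
  have hadd : ∀ (e : ℤ) (q q' : RR D), ev D e (q + q') = ev D e q + ev D e q' := fun e q q' =>
    (h2 D e 0 q q').2.2.2.1
  have hdeg : ∀ e : ℤ, ZDeg 1 (fun q : RR D => ev D e q) := by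
    intro e h h' x
    simp only [hadd]
    ring
  unfold PP at hf
  induction hf using Subgroup.closure_induction with
  | mem f hf =>
    obtain ⟨e, u, x, v, -, -, -, rfl⟩ := hf
    have hA := hpow (fun q : RR D => ev D e q) (u * N.a) 1 (hdeg e) le_rfl
    have hB := hpow (fun q : RR D => ev D e q) (v * N.a) 1 (hdeg e) le_rfl
    exact hmul _ _ (hmul _ _ hA (hconst x)) (hinv _ hB)
  | one => exact hconst 1
  | mul f g _ _ hf hg => exact hmul _ _ hf hg
  | inv f _ hf => exact hinv _ hf

end Pool.Agent.W962.PR.PPBP
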